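import Pool.Agent.helper74.MQ.Spec

/-!
# Project mq, module REP: existence of the chosen directions
-/

set_option autoImplicit false

open Complex Metric Set Filter Topology MeasureTheory MPS

noncomputable section

namespace MQ

theorem REP_mono {k : ℕ} [NeZero k] {b g : ZMod k → ℂ} {ψ : ℂ → ℂ} {T d y : ℝ} (h : T ≤ d)
    (hs : Slit b g ψ T y) : Slit b g ψ d y := by
  rintro ⟨e, he, χ, hn, hχ⟩
  refine hs ⟨e, he, χ, ?_, hχ⟩
  have hsub : HP 0 ∪ {w : ℂ | |w.im - y| < e ∧ w.re < T + e} ⊆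
      HP 0 ∪ {w : ℂ | |w.im - y| < e ∧ w.re < d + e} := by
    apply union_subset_union_right
    rintro w ⟨h1, h2⟩
    exact ⟨h1, by linarith⟩
  exact ⟨hn.diff.mono hsub, fun w hw => hn.av w (hsub hw), fun w hw => hn.eq w (hsub hw)⟩

/-- among finitely many points there is one with minimal value, topmost among those -/
theorem REP_min (A : Set ℝ) (hA : A.Finite) (hne : A.Nonempty) (D : ℝ → ℝ) :
    ∃ y ∈ A, ∀ y' ∈ A, D y ≤ D y' ∧ (D y' = D y → y' ≤ y) := by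
  classical
  have hne' : hA.toFinset.Nonempty := by rwa [Set.Finite.toFinset_nonempty]
  obtain ⟨y₀, h₀, hmin⟩ := Finset.exists_min_image hA.toFinset D hne'
  have hne2 : (hA.toFinset.filter fun y => D y = D y₀).Nonempty :=
    ⟨y₀, Finset.mem_filter.mpr ⟨h₀, rfl⟩⟩
  obtain ⟨y₁, h₁, hmax⟩ := Finset.exists_max_image _ id hne2
  rw [Finset.mem_filter] at h₁
  refine ⟨y₁, hA.mem_toFinset.mp h₁.1, ?_⟩
  intro y' hy'
  have hy'2 : y' ∈ hA.toFinset := hA.mem_toFinset.mpr hy'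
  refine ⟨?_, ?_⟩
  · rw [h₁.2]
    exact hmin y' hy'2
  · intro h
    exact hmax y' (Finset.mem_filter.mpr ⟨hy'2, by rw [h, h₁.2]⟩)

theorem REP_finite {k : ℕ} [NeZero k] {b g : ZMod k → ℂ} {ψ : ℂ → ℂ} {d x r : ℝ} (hr : r ≤ 1)
    (hfin : {y : ℝ | 0 ≤ y ∧ y < 2 * Real.pi ∧ Slit b g ψ d y}.Finite)
    (hper : ∀ y T (m : ℤ), Dep b g ψ y T → Dep b g ψ (y + m * (2 * Real.pi)) T) :
    {y : ℝ | |y - x| ≤ r ∧ ∃ T, T ≤ d ∧ Dep b g ψ y T}.Finite := by
  have hp : (0 : ℝ) < 2 * Real.pi := by positivity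
  refine Set.Finite.of_injOn (f := fun y => toIcoMod hp 0 y) ?_ ?_ hfin
  · rintro y ⟨-, T, hT, hd⟩
    have h1 := toIcoMod_mem_Ico hp 0 y
    rw [zero_add] at h1
    refine ⟨h1.1, h1.2, ?_⟩
    have h2 : toIcoMod hp 0 y = y + ((-(toIcoDiv hp 0 y) : ℤ) : ℝ) * (2 * Real.pi) := by
      rw [toIcoMod, zsmul_eq_mul]
      push_cast
      ring
    change Slit b g ψ d (toIcoMod hp 0 y)
    rw [h2]
    exact REP_mono hT (hper y T _ hd).1
  · rintro y ⟨hy, -⟩ y' ⟨hy', -⟩ h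
    have h2 : toIcoMod hp 0 y = toIcoMod hp 0 y' := h
    have e1 : y - toIcoDiv hp 0 y • (2 * Real.pi) = toIcoMod hp 0 y := rfl
    have e2 : y' - toIcoDiv hp 0 y' • (2 * Real.pi) = toIcoMod hp 0 y' := rfl
    rw [zsmul_eq_mul] at e1 e2
    have h3 : y - y' = ((toIcoDiv hp 0 y - toIcoDiv hp 0 y' : ℤ) : ℝ) * (2 * Real.pi) := by
      push_cast
      linarith
    have h4 : |y - y'| ≤ 2 := by
      have := abs_sub_le y x y'
      rw [abs_sub_comm x y'] at this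
      linarith
    have h5 : (toIcoDiv hp 0 y - toIcoDiv hp 0 y' : ℤ) = 0 := by
      by_contra hne
      have h6 : (1 : ℝ) ≤ |((toIcoDiv hp 0 y - toIcoDiv hp 0 y' : ℤ) : ℝ)| := by
        rw [← Int.cast_abs]
        exact_mod_cast Int.one_le_abs hne
      rw [h3, abs_mul, abs_of_pos hp] at h4
      nlinarith [Real.pi_gt_three]
    rw [h5] at h3
    simp only [Int.cast_zero, zero_mul] at h3
    linarith

/-- module REP -/
theorem REP (hFINS : FINS_stmt) (hDPR : DPR_stmt) : REP_stmt := by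
  intro k _ b g ψ hF γ Λ N ce α hγ hγ1 hΛ hW
  have hΛ0 : (0 : ℝ) < Λ := by linarith
  have hr : γ / Λ ≤ 1 := by
    rw [div_le_one hΛ0]
    linarith
  -- existence in every window
  have hex : ∀ i j, ∃ y T, |y - (ce j + α i)| ≤ γ / Λ ∧ Dep b g (ψ i) y T ∧ T ≤ γ / Λ ^ 3 ∧
      ∀ y' T', |y' - (ce j + α i)| ≤ γ / Λ → Dep b g (ψ i) y' T' →
        T ≤ T' ∧ (T' = T → y' ≤ y) := by
    intro i j
    obtain ⟨-, huni, -, hper, -, -, -⟩ := hDPR k b g ψ hF i
    have hfin := REP_finite (x := ce j + α i) hr (hFINS k b g ψ hF i (γ / Λ ^ 3)) hper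
    have hne : {y : ℝ | |y - (ce j + α i)| ≤ γ / Λ ∧ ∃ T, T ≤ γ / Λ ^ 3 ∧
        Dep b g (ψ i) y T}.Nonempty := by
      obtain ⟨y, T, h1, h2, h3⟩ := hW.act i j
      exact ⟨y, h1, T, h3, h2⟩
    classical
    obtain ⟨y, hy, hmin⟩ := REP_min _ hfin hne
      (fun y => if h : ∃ T, T ≤ γ / Λ ^ 3 ∧ Dep b g (ψ i) y T then h.choose else 0)
    obtain ⟨hy1, T, hT, hD⟩ := hy
    have hval : ∀ y T, T ≤ γ / Λ ^ 3 → Dep b g (ψ i) y T →
        (if h : ∃ T, T ≤ γ / Λ ^ 3 ∧ Dep b g (ψ i) y T then h.choose else 0) = T := by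
      intro y T hT hD
      have h : ∃ T, T ≤ γ / Λ ^ 3 ∧ Dep b g (ψ i) y T := ⟨T, hT, hD⟩
      rw [dif_pos h]
      exact huni y _ _ h.choose_spec.2 hD
    refine ⟨y, T, hy1, hD, hT, ?_⟩
    intro y' T' hy' hD'
    by_cases hT' : T' ≤ γ / Λ ^ 3
    · have := hmin y' ⟨hy', T', hT', hD'⟩
      rw [hval y T hT hD, hval y' T' hT' hD'] at this
      exact this
    · rw [not_le] at hT'
      refine ⟨by linarith, fun h => ?_⟩
      linarith
  choose rep τ h1 h2 h3 h4 using hex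
  refine ⟨rep, τ, ?_⟩
  have hshift : ∀ i j, rep i (j + N) = rep i j + 2 * Real.pi ∧ τ i (j + N) = τ i j := by
    intro i j
    obtain ⟨-, huni, -, hper, -, -, -⟩ := hDPR k b g ψ hF i
    have e1 : |rep i j + 2 * Real.pi - (ce (j + N) + α i)| ≤ γ / Λ := by
      rw [hW.per j]
      have := h1 i j
      convert this using 2
      ring
    have e2 : Dep b g (ψ i) (rep i j + 2 * Real.pi) (τ i j) := by
      have := hper (rep i j) (τ i j) 1 (h2 i j)
      rwa [Int.cast_one, one_mul] at this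
    have e3 : |rep i (j + N) - 2 * Real.pi - (ce j + α i)| ≤ γ / Λ := by
      have := h1 i (j + N)
      rw [hW.per j] at this
      convert this using 2
      ring
    have e4 : Dep b g (ψ i) (rep i (j + N) - 2 * Real.pi) (τ i (j + N)) := by
      have := hper (rep i (j + N)) (τ i (j + N)) (-1) (h2 i (j + N))
      rw [Int.cast_neg, Int.cast_one, neg_one_mul, ← sub_eq_add_neg] at this
      exact this
    obtain ⟨a1, a2⟩ := h4 i (j + N) _ _ e1 e2
    obtain ⟨b1, b2⟩ := h4 i j _ _ e3 e4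
    have e5 : τ i (j + N) = τ i j := le_antisymm a1 b1
    refine ⟨?_, e5⟩
    have a3 := a2 e5.symm
    have b3 := b2 e5
    linarith
  exact ⟨h1, h2, h3, h4, fun i j => (hshift i j).1, fun i j => (hshift i j).2⟩

end MQ
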